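import Pool.Agent.XQ.A3

set_option autoImplicit false

open Finset

/-! # [XQ-B1] the Lagrangian subspaces of `F_2^4` and the local images at `1 + i` of the curves `y² = x³ - D x` -/

namespace QT

open PI XL

/-- the 15 Lagrangian subspaces of `F_2^4` -/
inductive LK
  | z
  | a (k : ZMod 2)
  | b (k : ZMod 2)
  | d (k : ZMod 2)
  | g (k m n : ZMod 2)

/-- the equations of the subspace -/
def LK.P : LK → ZMod 2 → ZMod 2 → ZMod 2 → ZMod 2 → Prop
  | .z, y0, y1, _, _ => y0 = 0 ∧ y1 = 0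
  | .a k, y0, y1, s0, _ => y1 = 0 ∧ s0 = k * y0
  | .b k, y0, y1, _, s1 => y0 = 0 ∧ s1 = k * y1
  | .d k, y0, y1, s0, s1 => y0 = y1 ∧ s0 + s1 = k * y0
  | .g k m n, y0, y1, s0, s1 => s0 = k * y0 + m * y1 ∧ s1 = m * y0 + n * y1

instance (w : LK) (y0 y1 s0 s1 : ZMod 2) : Decidable (w.P y0 y1 s0 s1) :=
  match w with
  | .z => inferInstanceAs (Decidable (y0 = 0 ∧ y1 = 0))
  | .a k => inferInstanceAs (Decidable (y1 = 0 ∧ s0 = k * y0))
  | .b k => inferInstanceAs (Decidable (y0 = 0 ∧ s1 = k * y1))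
  | .d k => inferInstanceAs (Decidable (y0 = y1 ∧ s0 + s1 = k * y0))
  | .g k m n => inferInstanceAs (Decidable (s0 = k * y0 + m * y1 ∧ s1 = m * y0 + n * y1))

theorem LK.P_add (w : LK) {y0 y1 s0 s1 y0' y1' s0' s1' : ZMod 2} (h : w.P y0 y1 s0 s1) (h' : w.P y0' y1' s0' s1') :
    w.P (y0 + y0') (y1 + y1') (s0 + s0') (s1 + s1') := by
  cases w with
  | z => exact ⟨by linear_combination h.1 + h'.1, by linear_combination h.2 + h'.2⟩
  | a k1 => exact ⟨by linear_combination h.1 + h'.1, by linear_combination h.2 + h'.2⟩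
  | b k1 => exact ⟨by linear_combination h.1 + h'.1, by linear_combination h.2 + h'.2⟩
  | d k1 => exact ⟨by linear_combination h.1 + h'.1, by linear_combination h.2 + h'.2⟩
  | g k1 k2 k3 => exact ⟨by linear_combination h.1 + h'.1, by linear_combination h.2 + h'.2⟩

theorem LK.P_mul (w : LK) (k : ZMod 2) {y0 y1 s0 s1 : ZMod 2} (h : w.P y0 y1 s0 s1) :
    w.P (k * y0) (k * y1) (k * s0) (k * s1) := by
  cases w with
  | z => exact ⟨by linear_combination k * h.1, by linear_combination k * h.2⟩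
  | a k1 => exact ⟨by linear_combination k * h.1, by linear_combination k * h.2⟩
  | b k1 => exact ⟨by linear_combination k * h.1, by linear_combination k * h.2⟩
  | d k1 => exact ⟨by linear_combination k * h.1, by linear_combination k * h.2⟩
  | g k1 k2 k3 => exact ⟨by linear_combination k * h.1, by linear_combination k * h.2⟩

theorem LK.P_zero (w : LK) : w.P 0 0 0 0 := by
  cases w with
  | z => exact ⟨rfl, rfl⟩
  | a k1 => exact ⟨rfl, by ring⟩
  | b k1 => exact ⟨rfl, by ring⟩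
  | d k1 => exact ⟨rfl, by ring⟩
  | g k1 k2 k3 => exact ⟨by ring, by ring⟩

/-- the subspace -/
def LK.W (w : LK) : Submodule (ZMod 2) ((Fin 2 → ZMod 2) × (Fin 2 → ZMod 2)) where
  carrier := {v | w.P (v.1 0) (v.1 1) (v.2 0) (v.2 1)}
  add_mem' := fun h h' => w.P_add h h'
  zero_mem' := w.P_zero
  smul_mem' := fun k _ h => w.P_mul k h

theorem LK.mem_W {w : LK} {v : (Fin 2 → ZMod 2) × (Fin 2 → ZMod 2)} : v ∈ w.W ↔ w.P (v.1 0) (v.1 1) (v.2 0) (v.2 1) := Iff.rfl

theorem om_two (p q : (Fin 2 → ZMod 2) × (Fin 2 → ZMod 2)) : om p q =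
    (p.1 0 * q.2 0 - q.1 0 * p.2 0) + (p.1 1 * q.2 1 - q.1 1 * p.2 1) := by
  unfold om
  rw [Fin.sum_univ_two]

theorem LK.lag (w : LK) : Lag w.W := by
  have h2 : (2 : ZMod 2) = 0 := by decide
  intro q
  constructor
  · intro hq p hp
    rw [om_two]
    rw [LK.mem_W] at hp hq
    generalize p.1 0 = y0 at *
    generalize p.1 1 = y1 at *
    generalize p.2 0 = s0 at *
    generalize p.2 1 = s1 at *
    generalize q.1 0 = y0' at *
    generalize q.1 1 = y1' at *
    generalize q.2 0 = s0' at *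
    generalize q.2 1 = s1' at *
    cases w with
    | z =>
      obtain ⟨a1, a2⟩ := hp
      obtain ⟨b1, b2⟩ := hq
      subst a1 a2 b1 b2
      ring
    | a k1 =>
      obtain ⟨a1, a2⟩ := hp
      obtain ⟨b1, b2⟩ := hq
      subst a1 a2 b1 b2
      ring
    | b k1 =>
      obtain ⟨a1, a2⟩ := hp
      obtain ⟨b1, b2⟩ := hq
      subst a1 a2 b1 b2
      ring
    | d k1 =>
      obtain ⟨a1, a2⟩ := hp
      obtain ⟨b1, b2⟩ := hq
      subst a1 b1
      linear_combination y0 * b2 - y0' * a2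
    | g k1 k2 k3 =>
      obtain ⟨a1, a2⟩ := hp
      obtain ⟨b1, b2⟩ := hq
      subst a1 a2 b1 b2
      ring
  · intro h
    have h1 : ∀ x0 x1 t0 t1 : ZMod 2, w.P x0 x1 t0 t1 → (x0 * q.2 0 - q.1 0 * t0) + (x1 * q.2 1 - q.1 1 * t1) = 0 := by
      intro x0 x1 t0 t1 hx
      have := h (![x0, x1], ![t0, t1]) hx
      rwa [om_two] at this
    rw [LK.mem_W]
    clear h
    generalize q.1 0 = y0 at *
    generalize q.1 1 = y1 at *
    generalize q.2 0 = s0 at *
    generalize q.2 1 = s1 at *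
    cases w with
    | z =>
      have a1 := h1 0 0 1 0 ⟨rfl, rfl⟩
      have a2 := h1 0 0 0 1 ⟨rfl, rfl⟩
      exact ⟨by linear_combination -a1, by linear_combination -a2⟩
    | a k1 =>
      have a1 := h1 0 0 0 1 ⟨rfl, by ring⟩
      have a2 := h1 1 0 k1 0 ⟨rfl, by ring⟩
      exact ⟨by linear_combination -a1, by linear_combination a2⟩
    | b k1 =>
      have a1 := h1 0 0 1 0 ⟨rfl, by ring⟩
      have a2 := h1 0 1 0 k1 ⟨rfl, by ring⟩
      exact ⟨by linear_combination -a1, by linear_combination a2⟩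
    | d k1 =>
      have a1 := h1 0 0 1 1 ⟨rfl, by linear_combination h2⟩
      have a2 := h1 1 1 k1 0 ⟨rfl, by ring⟩
      refine ⟨by linear_combination -a1 - y1 * h2, by linear_combination a2⟩
    | g k1 k2 k3 =>
      have a1 := h1 1 0 k1 k2 ⟨by ring, by ring⟩
      have a2 := h1 0 1 k2 k3 ⟨by ring, by ring⟩
      exact ⟨by linear_combination a1, by linear_combination a2⟩

/-- the 0-1-valued indicator -/
def bb (p : Prop) [Decidable p] : ZMod 2 := if p then 0 else 1

/-- The local image at `1 + i` for `D = i^s (1+i)^t D'`, `D' = x + i y` the product of the `p^(a p)`, `(b, g)` the symbols of `D'`. -/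
def kind (s t : ℕ) (b g : ZMod 2) (x y : ℤ) : LK :=
  if t = 0 then
    if s % 2 = 1 then .a b
    else if b = 1 then .z
    else if s % 4 = 2 then .a (bb (x % 8 = 1))
    else if y % 8 = 0 then .a (bb ((x % 16 = 1 ∨ x % 16 = 13) ∧ y % 16 = 0 ∨ (x % 16 = 5 ∨ x % 16 = 9) ∧ y % 16 = 8))
    else .z
  else if t = 1 then
    if s % 4 = 0 then .g 1 b g
    else if s % 4 = 1 then .g 0 b (b + g)
    else if s % 4 = 2 then .g 0 b g
    else .g 1 (1 + b) (1 + b + g)
  else if t = 2 then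
    if s % 4 = 1 then .a b
    else if s % 4 = 3 then .g b g (g + bb (x % 8 = 1 ∨ x % 8 = 7))
    else if s % 4 = 0 then
      if g = 1 then .z
      else .b (bb (b = 0 ∧ (x - y) % 16 = 1 ∨ b = 1 ∧ (x + y) % 16 = 1))
    else
      if b = g then .d (bb (b = 0 ∧ (x + y) % 16 = 1 ∨ b = 1 ∧ (x - y) % 16 = 1))
      else .z
  else
    if s % 2 = 0 then .b g else .d (b + g)

theorem cast_mod2 (s : ℕ) : (s : ZMod 2) = if s % 2 = 0 then 0 else 1 := by
  split_ifs with h
  · exact (ZMod.natCast_eq_zero_iff _ _).2 (Nat.dvd_of_mod_eq_zero h)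
  · have h1 : s = 2 * (s / 2) + 1 := by omega
    rw [h1]
    push_cast
    have h2 : (2 : ZMod 2) = 0 := by decide
    rw [h2]
    ring

theorem kind_mem (s t : ℕ) (b g : ZMod 2) (x y : ℤ) (ht : t ≤ 3) : (kind s t b g x y).P (s : ZMod 2) (t : ZMod 2) b g := by
  have h2 : (2 : ZMod 2) = 0 := by decide
  have hb : b = 0 ∨ b = 1 := by
    revert b
    decide
  have hg : g = 0 ∨ g = 1 := by
    revert g
    decide
  have e0 : s % 4 = 0 → (s : ZMod 2) = 0 := fun h => by
    rw [cast_mod2, if_pos (by omega)]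
  have e1 : s % 4 = 1 → (s : ZMod 2) = 1 := fun h => by
    rw [cast_mod2, if_neg (by omega)]
  have e2 : s % 4 = 2 → (s : ZMod 2) = 0 := fun h => by
    rw [cast_mod2, if_pos (by omega)]
  have e3 : s % 4 = 3 → (s : ZMod 2) = 1 := fun h => by
    rw [cast_mod2, if_neg (by omega)]
  have f2 : s % 2 = 0 → (s : ZMod 2) = 0 := fun h => by
    rw [cast_mod2, if_pos h]
  have f3 : s % 2 = 1 → (s : ZMod 2) = 1 := fun h => by
    rw [cast_mod2, if_neg (by omega)]
  have hs4 : s % 4 = 0 ∨ s % 4 = 1 ∨ s % 4 = 2 ∨ s % 4 = 3 := by omega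
  have ht4 : t = 0 ∨ t = 1 ∨ t = 2 ∨ t = 3 := by omega
  have g0 : ((0 : ℕ) : ZMod 2) = 0 := rfl
  have g1 : ((1 : ℕ) : ZMod 2) = 1 := rfl
  have g2 : ((2 : ℕ) : ZMod 2) = 0 := rfl
  have g3 : ((3 : ℕ) : ZMod 2) = 1 := rfl
  unfold kind
  rcases ht4 with rfl | rfl | rfl | rfl
  · rw [if_pos rfl, g0]
    split_ifs with h1 h3 h4 h5
    · rw [f3 h1]
      exact ⟨rfl, by ring⟩
    · exact ⟨f2 (by omega), rfl⟩
    · rw [f2 (by omega)]
      exact ⟨rfl, by rw [hb.resolve_right h3, mul_zero]⟩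
    · rw [f2 (by omega)]
      exact ⟨rfl, by rw [hb.resolve_right h3, mul_zero]⟩
    · exact ⟨f2 (by omega), rfl⟩
  · rw [if_neg one_ne_zero, if_pos rfl, g1]
    split_ifs with h1 h3 h4
    · rw [e0 h1]
      exact ⟨by ring, by ring⟩
    · rw [e1 h3]
      exact ⟨by ring, by linear_combination -b * h2⟩
    · rw [e2 h4]
      exact ⟨by ring, by ring⟩
    · rw [e3 (by omega)]
      exact ⟨by linear_combination -h2, by linear_combination -(1 + b) * h2⟩
  · rw [if_neg two_ne_zero, if_neg (by norm_num), if_pos rfl, g2]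
    split_ifs with h1 h3 h4 h5 h6
    · rw [e1 h1]
      exact ⟨rfl, by ring⟩
    · rw [e3 h3]
      exact ⟨by ring, by ring⟩
    · exact ⟨e0 h4, rfl⟩
    · rw [e0 h4]
      exact ⟨rfl, by rw [hg.resolve_right h5, mul_zero]⟩
    · rw [e2 (by omega)]
      exact ⟨rfl, by rw [h6, mul_zero]; exact CharTwo.add_self_eq_zero g⟩
    · exact ⟨e2 (by omega), rfl⟩
  · rw [if_neg three_ne_zero, if_neg (by norm_num), if_neg (by norm_num), g3]
    split_ifs with h1
    · rw [f2 h1]
      exact ⟨rfl, by ring⟩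
    · rw [f3 (by omega)]
      exact ⟨rfl, by ring⟩

/-- the two signs -/
theorem mod_neg (x : ℤ) (m : ℤ) (y : ℤ) (h : m ∣ x - y) : m ∣ -x - -y := by
  have : -x - -y = -(x - y) := by ring
  rw [this]
  exact h.neg_right

theorem kind_congr (s t : ℕ) (b g : ZMod 2) {x y x' y' : ℤ} (hx : (16 : ℤ) ∣ x - x') (hy : (16 : ℤ) ∣ y - y') :
    kind s t b g x y = kind s t b g x' y' := by
  have a1 : x % 16 = x' % 16 := by omega
  have a2 : y % 16 = y' % 16 := by omega
  have a3 : x % 8 = x' % 8 := by omega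
  have a4 : y % 8 = y' % 8 := by omega
  have a5 : (x - y) % 16 = (x' - y') % 16 := by omega
  have a6 : (x + y) % 16 = (x' + y') % 16 := by omega
  unfold kind
  rw [a1, a2, a3, a4, a5, a6]

/-- the exponent of `i` when the product of the `p*` is replaced by the product of the `p` -/
def tS (s : ℕ) (b : ZMod 2) : ℕ := s + (if b = 0 then 0 else 2)

/-- the sign -/
def tD (b : ZMod 2) (x : Gi) : Gi := if b = 0 then x else -x

/-- **[XQ-B1]** the local images at `1 + i` of the curves `y² = x³ - D x` -/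
noncomputable def qloc : Loc where
  W := fun s t b g x => (kind (tS s b) t b g (tD b x).re (tD b x).im).W
  cong := by
    intro s t b g x y h
    have h1 : (16 : ℤ) ∣ (tD b x).re - (tD b y).re ∧ (16 : ℤ) ∣ (tD b x).im - (tD b y).im := by
      have h2 : (16 : Gi) ∣ tD b x - tD b y := by
        unfold tD
        split_ifs
        · exact h
        · have : -x - -y = -(x - y) := by ring
          rw [this]
          exact h.neg_right
      obtain ⟨c, hc⟩ := h2
      have h3 := congrArg Zsqrtd.re hc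
      have h4 := congrArg Zsqrtd.im hc
      simp only [Zsqrtd.re_sub, Zsqrtd.im_sub, Zsqrtd.re_mul, Zsqrtd.im_mul, Zsqrtd.re_ofNat, Zsqrtd.im_ofNat] at h3 h4
      exact ⟨⟨c.re, by rw [h3]; ring⟩, ⟨c.im, by rw [h4]; ring⟩⟩
    show (kind (tS s b) t b g (tD b x).re (tD b x).im).W = (kind (tS s b) t b g (tD b y).re (tD b y).im).W
    rw [kind_congr _ _ _ _ h1.1 h1.2]
  lag := fun s t b g x _ _ => LK.lag _
  mem := by
    intro s t b g x hs ht
    rw [LK.mem_W]
    have h1 := kind_mem (tS s b) t b g (tD b x).re (tD b x).im ht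
    have h2 : ((tS s b : ℕ) : ZMod 2) = (s : ZMod 2) := by
      unfold tS
      split_ifs
      · rw [add_zero]
      · have h3 : (2 : ZMod 2) = 0 := by decide
        push_cast
        rw [h3, add_zero]
    rw [h2] at h1
    exact h1

end QT
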